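import Pool.Agent.MP_82452b_an.H8.Main

/-!
A II₁ factor without index 2 subfactors all of whose tracial ultrapowers along nonprincipal
ultrafilters on `ℕ` have an index 2 subfactor.

`N = L(G)`, where `G` is an iterated wreath product of length `ω₁` with lamps of order three. At
each level one lamp commutes with all lower levels, which gives an outer involution of `N^U` along a
coherent family of finite subsets of `ω₁`; the marker columns force every involutive automorphism of
`N` itself to be inner.
-/

namespace Pool.Agent.Results.MP_82452b_an.NoLift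

open Filter Pool.Agent.MP_82452b_an.Stmt

theorem result :
    ∃ (H : Type) (_ : NormedAddCommGroup H) (_ : InnerProductSpace ℂ H) (_ : CompleteSpace H)
      (N : VonNeumannAlgebra H) (Ω : H),
      IsStdII1 N Ω ∧ (∀ P : VonNeumannAlgebra H, ¬ IndexTwo P N Ω) ∧
      ∀ U : Ultrafilter ℕ, (U : Filter ℕ) ≤ cofinite →
        (∃ (K : Type) (_ : NormedAddCommGroup K) (_ : InnerProductSpace ℂ K) (_ : CompleteSpace K)
          (L : VonNeumannAlgebra K) (Ψ : K) (π : (ℕ → (H →L[ℂ] H)) → (K →L[ℂ] K)),
          IsUltrapower N Ω U L Ψ π) ∧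
        ∀ (K : Type) [NormedAddCommGroup K] [InnerProductSpace ℂ K] [CompleteSpace K]
          (L : VonNeumannAlgebra K) (Ψ : K) (π : (ℕ → (H →L[ℂ] H)) → (K →L[ℂ] K)),
          IsUltrapower N Ω U L Ψ π → ∃ N₀ : VonNeumannAlgebra K, IndexTwo N₀ L Ψ :=
  Pool.Agent.MP_82452b_an.H8.main

end Pool.Agent.Results.MP_82452b_an.NoLift
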